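import Pool.Agent.H64.BTL.Stmts

/-! Board btl, row CMP: the completed algebraic closure with the spectral norm. -/

set_option autoImplicit false

namespace Pool.BTL

theorem CMP_thm : CMPStmt := by
  intro k₀ _ _ _
  letI i1 : NontriviallyNormedField (AlgebraicClosure k₀) :=
    spectralNorm.nontriviallyNormedField k₀ (AlgebraicClosure k₀)
  letI i2 : NormedAlgebra k₀ (AlgebraicClosure k₀) :=
    spectralNorm.normedAlgebra k₀ (AlgebraicClosure k₀)
  have hext : ∀ x : k₀, ‖algebraMap k₀ (AlgebraicClosure k₀) x‖ = ‖x‖ := fun x =>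
    spectralNorm_extends x
  refine ⟨UniformSpace.Completion (AlgebraicClosure k₀),
    { (inferInstance : NormedField (UniformSpace.Completion (AlgebraicClosure k₀))) with
      non_trivial := ?_ }, inferInstance, ?_, ?_⟩
  · obtain ⟨x, hx⟩ := NontriviallyNormedField.non_trivial (α := k₀)
    refine ⟨((algebraMap k₀ (AlgebraicClosure k₀) x : AlgebraicClosure k₀) :
      UniformSpace.Completion (AlgebraicClosure k₀)), ?_⟩
    have h1 : ‖((algebraMap k₀ (AlgebraicClosure k₀) x : AlgebraicClosure k₀) :
      UniformSpace.Completion (AlgebraicClosure k₀))‖ = ‖x‖ := by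
      rw [UniformSpace.Completion.norm_coe, hext]
    exact hx.trans_eq h1.symm
  · exact (inferInstance : NormedAlgebra k₀ (UniformSpace.Completion (AlgebraicClosure k₀)))
  · refine ⟨UniformSpace.Completion.coeRingHom, fun x => ?_, fun x => ?_⟩
    · change ‖((algebraMap k₀ (AlgebraicClosure k₀) x : AlgebraicClosure k₀) :
        UniformSpace.Completion (AlgebraicClosure k₀))‖ = ‖x‖
      rw [UniformSpace.Completion.norm_coe, hext]
    · have h1 : IsIntegral k₀ x := (AlgebraicClosure.isAlgebraic k₀).isAlgebraic x |>.isIntegral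
      obtain ⟨P, hP, hPx⟩ := h1
      refine ⟨P, hP, ?_⟩
      have h2 : algebraMap k₀ (UniformSpace.Completion (AlgebraicClosure k₀)) =
          (UniformSpace.Completion.coeRingHom).comp (algebraMap k₀ (AlgebraicClosure k₀)) := rfl
      change Polynomial.eval₂ (algebraMap k₀ (UniformSpace.Completion (AlgebraicClosure k₀))) _ P = 0
      rw [h2, ← Polynomial.hom_eval₂, hPx, map_zero]

end Pool.BTL
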